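import Pool.Agent.R219.CC.Fin

set_option autoImplicit false

/-!
MP_8efaaa_nt (squarefree `a` in the classes 5, 6, 7 mod 8): clusters of squarefree congruent numbers
in each of these classes.  (helper219)
-/

namespace Pool.Agent.Results.MP_8efaaa_nt.Clusters

/-- `a` is a congruent number: the equations `x² + a y² = z²` and `x² - a y² = t²` have a solution in
positive integers. -/
def Congruent (a : ℕ) : Prop :=
  ∃ x y z t : ℕ, 0 < x ∧ 0 < y ∧ 0 < z ∧ 0 < t ∧ x ^ 2 + a * y ^ 2 = z ^ 2 ∧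
    x ^ 2 = a * y ^ 2 + t ^ 2

/-- **Clusters of squarefree congruent numbers.** There is a constant `C` such that for all real
`X ≥ 1`, all `1 ≤ K ≤ X^(1/6)` and each class `r = 5, 6, 7` mod `8` (also `r = 1, 2, 3`) there is `Z`
with `X ≤ Z ≤ X + C K X^(5/6)` such that `[Z, Z + C K⁴ X^(1/3)]` contains at least `K` squarefree
congruent numbers `n ≡ r` mod `8`. -/
theorem result : ∃ C : ℝ, 0 < C ∧ ∀ (X : ℝ) (K r : ℕ), 1 ≤ X → 1 ≤ K → (K : ℝ) ≤ X ^ (1 / 6 : ℝ) →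
    (r = 5 ∨ r = 6 ∨ r = 7 ∨ r = 1 ∨ r = 2 ∨ r = 3) →
    ∃ Z : ℝ, X ≤ Z ∧ Z ≤ X + C * K * X ^ (5 / 6 : ℝ) ∧
      K ≤ {n : ℕ | Z ≤ n ∧ (n : ℝ) ≤ Z + C * (K : ℝ) ^ 4 * X ^ (1 / 3 : ℝ) ∧ n % 8 = r ∧
        Squarefree n ∧ Congruent n}.ncard := by
  obtain ⟨C, hC, h⟩ := Pool.Agent.R219.CC.clusters Congruent
    (fun u s hs0 hs => Pool.Agent.R219.CC.three_squares hs0 hs)
  exact ⟨C, hC, fun X K r hX hK hKX hr => h X K r hX hK hKX (by tauto)⟩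

end Pool.Agent.Results.MP_8efaaa_nt.Clusters
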