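import Pool.Agent.TH646.CA.Main

set_option autoImplicit false

/-!
# Many almost prime congruent numbers in intervals of length `X ^ θ`, `θ > 3 / 4`

Let `3/4 < θ ≤ 1` and `r ∈ {5, 6, 7}` (or `r ∈ {1, 2, 3}`).  There is `R` such that for all large `X` the
interval `[X, X + X ^ θ]` contains at least `X ^ (θ - 1/2) / (log X) ^ 8` squarefree congruent
numbers `n ≡ r` modulo `8` with at most `R` prime factors, all of them (except `2`, for even `n`)
larger than `X ^ (1 / R)`.  For `θ = 1` these are `X ^ (1/2) / (log X) ^ 8` numbers in `[X, 2 X]`.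

Proof (`Pool.Agent.TH646.CA`).  The numbers are the values `κ a b (a ^ 2 - λ ^ 2 b ^ 2)` of a binary
quartic form with `b` prime and `a` in a class modulo `120`, such that `a` and `a ± λ b` have no
small prime factors and are squarefree; the sieve is applied on the short segments of the lines
`b = const` inside the region where the form takes its values in the interval, and the
multiplicity of the values is bounded.
-/

namespace Pool.Agent.Results.MP_8efaaa_nt.ManyInIntervals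

/-- `x² + a y² = z²`, `x² - a y² = t²` is solvable in positive integers -/
def Congruent (a : ℕ) : Prop :=
  ∃ x y z t : ℕ, 0 < x ∧ 0 < y ∧ 0 < z ∧ 0 < t ∧ x ^ 2 + a * y ^ 2 = z ^ 2 ∧
    x ^ 2 = a * y ^ 2 + t ^ 2

lemma congruent_of (n : ℕ) (h : Pool.Agent.TH646.CA.Cong n) : Congruent n := by
  obtain ⟨a, b, c, ha, hb, hc, h1, h2⟩ := h
  replace h2 := h2.symm
  -- common denominator
  obtain ⟨A, B, C, D, hA, hB, hC, hD, eA, eB, eC⟩ : ∃ A B C D : ℕ, 0 < A ∧ 0 < B ∧ 0 < C ∧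
      0 < D ∧ a = (A : ℚ) / D ∧ b = (B : ℚ) / D ∧ c = (C : ℚ) / D := by
    have na : (0 : ℤ) < a.num := Rat.num_pos.2 ha
    have nb : (0 : ℤ) < b.num := Rat.num_pos.2 hb
    have nc : (0 : ℤ) < c.num := Rat.num_pos.2 hc
    have ea : ((a.num.natAbs : ℕ) : ℚ) = a.num := by
      rw [Nat.cast_natAbs, abs_of_pos na]
    have eb : ((b.num.natAbs : ℕ) : ℚ) = b.num := by
      rw [Nat.cast_natAbs, abs_of_pos nb]
    have ec : ((c.num.natAbs : ℕ) : ℚ) = c.num := by
      rw [Nat.cast_natAbs, abs_of_pos nc]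
    have da : (a.den : ℚ) ≠ 0 := by exact_mod_cast a.den_nz
    have db : (b.den : ℚ) ≠ 0 := by exact_mod_cast b.den_nz
    have dc : (c.den : ℚ) ≠ 0 := by exact_mod_cast c.den_nz
    have qa := Rat.num_div_den a
    have qb := Rat.num_div_den b
    have qc := Rat.num_div_den c
    refine ⟨a.num.natAbs * (b.den * c.den), b.num.natAbs * (a.den * c.den),
      c.num.natAbs * (a.den * b.den), a.den * b.den * c.den, ?_, ?_, ?_, ?_, ?_, ?_, ?_⟩
    · have := a.pos; have := b.pos; have := c.pos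
      have : 0 < a.num.natAbs := by omega
      positivity
    · have := a.pos; have := b.pos; have := c.pos
      have : 0 < b.num.natAbs := by omega
      positivity
    · have := a.pos; have := b.pos; have := c.pos
      have : 0 < c.num.natAbs := by omega
      positivity
    · have := a.pos; have := b.pos; have := c.pos
      positivity
    · push_cast
      rw [ea]
      nth_rewrite 1 [← qa]
      field_simp
    · push_cast
      rw [eb]
      nth_rewrite 1 [← qb]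
      field_simp
    · push_cast
      rw [ec]
      nth_rewrite 1 [← qc]
      field_simp
  have hDq : (D : ℚ) ≠ 0 := by positivity
  rw [eA, eB, eC] at h1
  rw [eA, eB] at h2
  have g1 : A ^ 2 + B ^ 2 = C ^ 2 := by
    have : (A : ℚ) ^ 2 + (B : ℚ) ^ 2 = (C : ℚ) ^ 2 := by
      field_simp at h1
      exact h1
    exact_mod_cast this
  have g2 : 2 * n * D ^ 2 = A * B := by
    have : 2 * (n : ℚ) * (D : ℚ) ^ 2 = A * B := by
      field_simp at h2
      linarith
    exact_mod_cast this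
  have hne : A ≠ B := by
    intro hAB
    rw [hAB] at g1
    have g3 : (2 : ℕ) * B ^ 2 = C ^ 2 := by omega
    have h4 : Irrational (Real.sqrt 2) := irrational_sqrt_two
    apply h4
    refine ⟨(C : ℚ) / B, ?_⟩
    have hB' : (B : ℝ) ≠ 0 := by positivity
    push_cast
    symm
    rw [Real.sqrt_eq_iff_mul_self_eq (by norm_num) (by positivity)]
    have : (2 : ℝ) * (B : ℝ) ^ 2 = (C : ℝ) ^ 2 := by exact_mod_cast g3
    field_simp
    linarith
  rcases lt_or_gt_of_ne hne with hlt | hlt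
  · obtain ⟨s, rfl⟩ := Nat.exists_eq_add_of_lt hlt
    refine ⟨C, 2 * D, 2 * A + s + 1, s + 1, hC, by positivity, by positivity, by positivity, ?_, ?_⟩
    · nlinarith
    · nlinarith
  · obtain ⟨s, rfl⟩ := Nat.exists_eq_add_of_lt hlt
    refine ⟨C, 2 * D, 2 * B + s + 1, s + 1, hC, by positivity, by positivity, by positivity, ?_, ?_⟩
    · nlinarith
    · nlinarith

/-- **Many almost prime congruent numbers in short intervals.** -/
theorem result (θ : ℝ) (hθ : 3 / 4 < θ) (hθ1 : θ ≤ 1) :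
    ∃ R : ℕ, 0 < R ∧ ∃ X₀ : ℝ, ∀ X : ℝ, X₀ ≤ X →
      ∀ r : ℕ, (r = 5 ∨ r = 6 ∨ r = 7 ∨ r = 1 ∨ r = 2 ∨ r = 3) →
        X ^ (θ - 1 / 2) / Real.log X ^ 8 ≤
          (({n : ℕ | X ≤ n ∧ (n : ℝ) ≤ X + X ^ θ ∧ n % 8 = r ∧ Squarefree n ∧ Congruent n ∧
            n.primeFactors.card ≤ R ∧
            ∀ p : ℕ, p.Prime → p ∣ n → p = 2 ∨ X ^ (1 / (R : ℝ)) < p}.ncard : ℕ) : ℝ) := by
  obtain ⟨R, hR, X₀, h⟩ := Pool.Agent.TH646.CA.main θ hθ hθ1
  refine ⟨R, hR, X₀, fun X hX r hr => ?_⟩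
  obtain ⟨κ, lam, s, e, hF⟩ : ∃ κ lam s e : ℤ, Pool.Agent.TH646.CA.Fam κ lam s e (r : ℤ) := by
    rcases hr with rfl | rfl | rfl | rfl | rfl | rfl
    · exact ⟨1, 36, 6, 13, by unfold Pool.Agent.TH646.CA.Fam; norm_num⟩
    · exact ⟨2, 18, 3, 11, by unfold Pool.Agent.TH646.CA.Fam; norm_num⟩
    · exact ⟨1, 36, 6, 7, by unfold Pool.Agent.TH646.CA.Fam; norm_num⟩
    · exact ⟨1, 36, 6, 17, by unfold Pool.Agent.TH646.CA.Fam; norm_num⟩
    · exact ⟨2, 18, 3, 1, by unfold Pool.Agent.TH646.CA.Fam; norm_num⟩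
    · exact ⟨1, 36, 6, 43, by unfold Pool.Agent.TH646.CA.Fam; norm_num⟩
  refine (h X hX κ lam s e r hF).trans ?_
  have hfin : {n : ℕ | X ≤ n ∧ (n : ℝ) ≤ X + X ^ θ ∧ n % 8 = r ∧ Squarefree n ∧ Congruent n ∧
      n.primeFactors.card ≤ R ∧
      ∀ p : ℕ, p.Prime → p ∣ n → p = 2 ∨ X ^ (1 / (R : ℝ)) < p}.Finite := by
    apply (Set.finite_Iic ⌊X + X ^ θ⌋₊).subset
    intro n hn
    exact Nat.le_floor hn.2.1
  have hsub : {n : ℕ | X ≤ n ∧ (n : ℝ) ≤ X + X ^ θ ∧ (n : ℤ) % 8 = (r : ℤ) ∧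
      Squarefree n ∧ Pool.Agent.TH646.CA.Cong n ∧ n.primeFactors.card ≤ R ∧
      ∀ p : ℕ, p.Prime → p ∣ n → p = 2 ∨ X ^ (1 / (R : ℝ)) < p} ⊆
      {n : ℕ | X ≤ n ∧ (n : ℝ) ≤ X + X ^ θ ∧ n % 8 = r ∧ Squarefree n ∧ Congruent n ∧
        n.primeFactors.card ≤ R ∧
        ∀ p : ℕ, p.Prime → p ∣ n → p = 2 ∨ X ^ (1 / (R : ℝ)) < p} := by
    rintro n ⟨h1, h2, h3, h4, h5, h6, h7⟩
    exact ⟨h1, h2, by exact_mod_cast h3, h4, congruent_of n h5, h6, h7⟩
  exact_mod_cast Set.ncard_le_ncard hsub hfin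

end Pool.Agent.Results.MP_8efaaa_nt.ManyInIntervals
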